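import Pool.Agent.H86.LX.NumStmt

/-!
# Number lemmas for LEMMA X: proofs
-/

set_option autoImplicit false

namespace Pool.LX

open Finset

/-- The dyadic bound. -/
theorem pd_dyad (n : ℕ) (y : ℝ) :
    pd n y ≤ 1 + ∑ k ∈ range (n + 1), if |y| ≤ 1 / 2 ^ k then (2 : ℝ) ^ (k + 1) else 0 := by
  have hnn : ∀ m : ℕ, 0 ≤ ∑ k ∈ range m, if |y| ≤ 1 / 2 ^ k then (2 : ℝ) ^ (k + 1) else 0 := by
    intro m
    refine Finset.sum_nonneg fun k _ => ?_
    split_ifs <;> positivity
  induction n with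
  | zero =>
    have h1 := pd_le 0 y
    have h2 := hnn 1
    simp only [pow_zero] at h1
    have h3 : (range (0 + 1)) = range 1 := rfl
    rw [h3]
    linarith only [h2, h1]
  | succ n ih =>
    rw [Finset.sum_range_succ]
    by_cases h : |y| ≤ 1 / 2 ^ n
    · have h1 := pd_le (n + 1) y
      have h2 : (2 : ℝ) ^ (n + 1) ≤
          ∑ k ∈ range (n + 1), if |y| ≤ 1 / 2 ^ k then (2 : ℝ) ^ (k + 1) else 0 := by
        rw [Finset.sum_range_succ, if_pos h]
        have := hnn n
        linarith only [this]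
      have h3 : (0 : ℝ) ≤ if |y| ≤ 1 / 2 ^ (n + 1) then (2 : ℝ) ^ (n + 1 + 1) else 0 := by
        split_ifs <;> positivity
      linarith only [h1, h2, h3]
    · push Not at h
      have e1 : (1 : ℝ) / 2 ^ (n + 1) ≤ 1 / 2 ^ n :=
        one_div_le_one_div_of_le (by positivity) (pow_le_pow_right₀ (by norm_num) (Nat.le_succ n))
      have e2 : pd (n + 1) y = pd n y := by
        unfold pd
        rw [max_eq_left (e1.trans h.le), max_eq_left h.le]
      have h3 : (0 : ℝ) ≤ if |y| ≤ 1 / 2 ^ (n + 1) then (2 : ℝ) ^ (n + 1 + 1) else 0 := by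
        split_ifs <;> positivity
      rw [e2]
      linarith only [ih, h3]

/-- Integers in an interval. -/
theorem card_int (F : Finset ℤ) (c r : ℝ) (hr : 0 ≤ r) (h : ∀ A ∈ F, |(A : ℝ) - c| ≤ r) :
    (F.card : ℝ) ≤ 2 * r + 1 := by
  have h1 : F ⊆ Finset.Icc ⌈c - r⌉ ⌊c + r⌋ := by
    intro A hA
    have h2 := abs_le.1 (h A hA)
    rw [Finset.mem_Icc, Int.ceil_le, Int.le_floor]
    constructor <;> linarith only [h2, h2.1, h2.2]
  have h2 : (F.card : ℝ) ≤ ((⌊c + r⌋ + 1 - ⌈c - r⌉).toNat : ℝ) := by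
    have := Finset.card_le_card h1
    rw [Int.card_Icc] at this
    exact_mod_cast this
  have h3 : ((⌊c + r⌋ + 1 - ⌈c - r⌉).toNat : ℝ) ≤ 2 * r + 1 := by
    rcases le_total (⌊c + r⌋ + 1 - ⌈c - r⌉) 0 with h4 | h4
    · rw [Int.toNat_of_nonpos h4]
      push_cast
      linarith only [hr]
    · have h5 : (((⌊c + r⌋ + 1 - ⌈c - r⌉).toNat : ℤ) : ℝ) = ((⌊c + r⌋ + 1 - ⌈c - r⌉ : ℤ) : ℝ) := by
        rw [Int.toNat_of_nonneg h4]
      have h6 : ((⌊c + r⌋ + 1 - ⌈c - r⌉).toNat : ℝ) = ((⌊c + r⌋ + 1 - ⌈c - r⌉ : ℤ) : ℝ) := by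
        rw [← h5]
        norm_cast
      rw [h6]
      push_cast
      have h7 := Int.floor_le (c + r)
      have h8 := Int.le_ceil (c - r)
      linarith only [h7, h8]
  exact h2.trans h3

theorem sum_two_pow (n : ℕ) : ∑ k ∈ range (n + 1), (2 : ℝ) ^ (k + 1) ≤ 4 * 2 ^ n := by
  induction n with
  | zero => norm_num
  | succ n ih =>
    rw [Finset.sum_range_succ]
    have e1 : (2 : ℝ) ^ (n + 1 + 1) = 2 * 2 ^ (n + 1) := by ring
    have e2 : (2 : ℝ) ^ (n + 1) = 2 * 2 ^ n := by ring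
    rw [e1]
    linarith only [ih, e2]

/-- Sum of `pd` from the counts of the levels. -/
theorem sum_pd_le {ι : Type} (F : Finset ι) (f : ι → ℝ) (n : ℕ) (c d : ℝ)
    (h : ∀ k ≤ n, (((F.filter fun A => |f A| ≤ 1 / 2 ^ k).card : ℕ) : ℝ) ≤ c / 2 ^ k + d)
    (hd : 0 ≤ d) :
    ∑ A ∈ F, pd n (f A) ≤ F.card + 2 * c * (n + 1) + 4 * d * 2 ^ n := by
  classical
  have h1 : ∑ A ∈ F, pd n (f A) ≤ ∑ A ∈ F, (1 + ∑ k ∈ range (n + 1),
      if |f A| ≤ 1 / 2 ^ k then (2 : ℝ) ^ (k + 1) else 0) :=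
    Finset.sum_le_sum fun A _ => pd_dyad n (f A)
  rw [Finset.sum_add_distrib, Finset.sum_const, nsmul_eq_mul, mul_one, Finset.sum_comm] at h1
  have h2 : ∑ k ∈ range (n + 1), ∑ A ∈ F, (if |f A| ≤ 1 / 2 ^ k then (2 : ℝ) ^ (k + 1) else 0) ≤
      ∑ k ∈ range (n + 1), (2 * c + d * 2 ^ (k + 1)) := by
    refine Finset.sum_le_sum fun k hk => ?_
    have h3 := h k (by have := Finset.mem_range.1 hk; omega)
    rw [← Finset.sum_filter, Finset.sum_const, nsmul_eq_mul]
    calc (((F.filter fun A => |f A| ≤ 1 / 2 ^ k).card : ℕ) : ℝ) * 2 ^ (k + 1) ≤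
        (c / 2 ^ k + d) * 2 ^ (k + 1) := mul_le_mul_of_nonneg_right h3 (by positivity)
      _ = 2 * c + d * 2 ^ (k + 1) := by
        rw [pow_succ]
        field_simp
  rw [Finset.sum_add_distrib, Finset.sum_const, Finset.card_range, nsmul_eq_mul,
    ← Finset.mul_sum] at h2
  have h4 := mul_le_mul_of_nonneg_left (sum_two_pow n) hd
  push_cast at h2
  linarith only [h1, h4, h2]

/-- **(N2)** -/
theorem n2 : N2Stmt := by
  intro B hB
  refine ⟨2 * B + 25, by linarith only [hB], ?_⟩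
  intro n x F y hF
  have hp : (1 : ℝ) ≤ 2 ^ n := one_le_pow₀ (by norm_num)
  have hn : (0 : ℝ) ≤ n := Nat.cast_nonneg n
  have key : ∀ (G : Finset ℤ) (r : ℝ), G ⊆ F → (∀ A ∈ G, |x - y A| ≤ r) → 0 ≤ r →
      (G.card : ℝ) ≤ 2 * r * 2 ^ n + 3 := by
    intro G r hG hr hr0
    have h1 := card_int G (2 ^ n * x) (r * 2 ^ n + 1) (by positivity) (fun A hA => by
      have h2 := (hF A (hG hA)).1
      have h3 := Int.floor_le ((2 : ℝ) ^ n * y A)
      have h4 := Int.lt_floor_add_one ((2 : ℝ) ^ n * y A)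
      rw [h2] at h3 h4
      have h5 := abs_le.1 (hr A hA)
      have h6 := mul_le_mul_of_nonneg_left h5.1 (show (0 : ℝ) ≤ 2 ^ n by positivity)
      have h7 := mul_le_mul_of_nonneg_left h5.2 (show (0 : ℝ) ≤ 2 ^ n by positivity)
      rw [abs_le]
      constructor <;> linarith)
    linarith
  have hc := key F B (Finset.Subset.refl F) (fun A hA => (hF A hA).2) (by linarith)
  have h1 := sum_pd_le F (fun A => x - y A) n (2 * 2 ^ n) 3 (fun k _ => by
    have h2 := key (F.filter fun A => |x - y A| ≤ 1 / 2 ^ k) (1 / 2 ^ k)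
      (Finset.filter_subset _ _) (fun A hA => (Finset.mem_filter.1 hA).2) (by positivity)
    have e1 : 2 * (1 / 2 ^ k) * (2 : ℝ) ^ n = 2 * 2 ^ n / 2 ^ k := by ring
    rw [e1] at h2
    exact h2) (by norm_num)
  have h3 : (2 * B + 25) * 2 ^ n * ((n : ℝ) + 1) = (2 * B + 21) * 2 ^ n * ((n : ℝ) + 1) +
      4 * 2 ^ n * ((n : ℝ) + 1) := by ring
  have h4 : (2 * B + 21) * 2 ^ n * 1 ≤ (2 * B + 21) * 2 ^ n * ((n : ℝ) + 1) :=
    mul_le_mul_of_nonneg_left (by linarith only) (by positivity)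
  rw [h3]
  have h5 : 2 * (2 * 2 ^ n) * ((n : ℝ) + 1) = 4 * 2 ^ n * ((n : ℝ) + 1) := by ring
  nlinarith only [hp, hc, h1, h4]

/-- **(N1)** -/
theorem n1 : N1Stmt := by
  classical
  intro B hB
  obtain ⟨C, hC⟩ : ∃ C : ℝ, C = (2 * B + 1) * (B + 2) + 16 * B := ⟨_, rfl⟩
  have hB0 : 0 < B := by linarith only [hB]
  have hC0 : 0 < C := by
    rw [hC]
    positivity
  refine ⟨C, hC0, ?_⟩
  intro n M a b σ₀ F hnM ha hb hF
  have hM : (1 : ℝ) ≤ 2 ^ M := one_le_pow₀ (by norm_num)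
  have hnM' : (2 : ℝ) ^ n ≤ 2 ^ M := pow_le_pow_right₀ (by norm_num) hnM
  have hn : (0 : ℝ) ≤ n := Nat.cast_nonneg n
  have hcard : (F.card : ℝ) ≤ (2 * B + 1) * 2 ^ M := by
    have h1 := card_int F σ₀ (B * 2 ^ M) (by positivity) hF
    nlinarith only [hM, h1]
  have hpa := pd_pos n a
  rcases le_or_gt |a| (1 / 2 ^ n) with h | h
  · have e1 : pd n a = 2 ^ n := by
      unfold pd
      rw [max_eq_right h]
      simp
    have h1 : ∑ S ∈ F, pd n (a + ((S : ℝ) - σ₀) / 2 ^ M * b) ≤ F.card * 2 ^ n := by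
      refine (Finset.sum_le_sum fun S _ => pd_le n _).trans ?_
      rw [Finset.sum_const, nsmul_eq_mul]
    rw [e1]
    have h2 : (F.card : ℝ) * 2 ^ n ≤ (2 * B + 1) * 2 ^ M * 2 ^ n :=
      mul_le_mul_of_nonneg_right hcard (by positivity)
    have h3 : (2 * B + 1) * 2 ^ M * 2 ^ n ≤ C * 2 ^ M * 2 ^ n := by
      have : 2 * B + 1 ≤ C := by
        rw [hC]
        nlinarith only [hB]
      have h4 : (0 : ℝ) ≤ 2 ^ M * 2 ^ n := by positivity
      nlinarith only [this, h4]
    have h5 : C * 2 ^ M * 2 ^ n ≤ C * 2 ^ M * (n + 1) * 2 ^ n := by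
      have h6 : (0 : ℝ) ≤ C * 2 ^ M * 2 ^ n := by positivity
      nlinarith only [h6]
    linarith only [h1, h2, h3, h5]
  · have ha0 : 0 < |a| := lt_trans (by positivity) h
    have e1 : pd n a = 1 / |a| := by
      unfold pd
      rw [max_eq_left h.le, one_div]
    have hBa : 1 ≤ B * pd n a := by
      rw [e1, mul_one_div, le_div_iff₀ ha0, one_mul]
      exact ha
    obtain ⟨f, hf⟩ : ∃ f : ℤ → ℝ, f = fun S : ℤ => a + ((S : ℝ) - σ₀) / 2 ^ M * b := ⟨_, rfl⟩
    have e2 : ∑ S ∈ F, pd n (a + ((S : ℝ) - σ₀) / 2 ^ M * b) = ∑ S ∈ F, pd n (f S) := by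
      rw [hf]
    rw [e2, ← Finset.sum_filter_add_sum_filter_not F (fun S => |f S| < |a| / 2)]
    have h1 : ∑ S ∈ F.filter (fun S => ¬ |f S| < |a| / 2), pd n (f S) ≤
        (2 * B + 1) * 2 ^ M * (2 * pd n a) := by
      have h2 : ∑ S ∈ F.filter (fun S => ¬ |f S| < |a| / 2), pd n (f S) ≤
          ∑ S ∈ F.filter (fun S => ¬ |f S| < |a| / 2), 2 * pd n a := by
        refine Finset.sum_le_sum fun S hS => ?_
        have h3 := not_lt.1 (Finset.mem_filter.1 hS).2
        rw [e1]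
        unfold pd
        have h4 : 2 * (1 / |a|) = (|a| / 2)⁻¹ := by
          field_simp
        rw [h4]
        exact inv_anti₀ (by positivity) (h3.trans (le_max_left _ _))
      rw [Finset.sum_const, nsmul_eq_mul] at h2
      have h5 : (((F.filter (fun S => ¬ |f S| < |a| / 2)).card : ℕ) : ℝ) ≤ (2 * B + 1) * 2 ^ M := by
        refine le_trans ?_ hcard
        exact_mod_cast Finset.card_filter_le F _
      have h6 := mul_le_mul_of_nonneg_right h5 (show 0 ≤ 2 * pd n a by positivity)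
      linarith only [h2, h6]
    have h2 : ∑ S ∈ F.filter (fun S => |f S| < |a| / 2), pd n (f S) ≤
        (2 * B + 1) * 2 ^ M + 8 * B * 2 ^ M * pd n a * (n + 1) + 4 * 2 ^ n := by
      rcases (F.filter (fun S => |f S| < |a| / 2)).eq_empty_or_nonempty with h0 | ⟨S₀, hS₀⟩
      · rw [h0, Finset.sum_empty]
        positivity
      · obtain ⟨hS1, hS2⟩ := Finset.mem_filter.1 hS₀
        -- `b` is not small
        have hb0 : |a| / (2 * B) ≤ |b| := by
          have h3 : |((S₀ : ℝ) - σ₀) / 2 ^ M| ≤ B := by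
            rw [abs_div, abs_of_pos (by positivity : (0 : ℝ) < 2 ^ M), div_le_iff₀ (by positivity)]
            exact hF S₀ hS1
          have h4 : |a| - |((S₀ : ℝ) - σ₀) / 2 ^ M| * |b| ≤ |f S₀| := by
            rw [hf, ← abs_mul]
            have := abs_sub_abs_le_abs_sub a (-(((S₀ : ℝ) - σ₀) / 2 ^ M * b))
            rw [abs_neg, sub_neg_eq_add] at this
            exact this
          have h5 := mul_le_mul_of_nonneg_right h3 (abs_nonneg b)
          rw [div_le_iff₀ (by positivity)]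
          linarith only [hS2, h4, h5]
        have hbp : 0 < |b| := lt_of_lt_of_le (by positivity) hb0
        have hbne : b ≠ 0 := abs_pos.1 hbp
        have h3 := sum_pd_le (F.filter (fun S => |f S| < |a| / 2)) f n
          (4 * B * 2 ^ M * pd n a) 1 (fun k _ => by
            have h4 := card_int ((F.filter (fun S => |f S| < |a| / 2)).filter
              fun S => |f S| ≤ 1 / 2 ^ k) (σ₀ - 2 ^ M * a / b) (2 ^ M * (1 / 2 ^ k) / |b|)
              (by positivity) (fun S hS => by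
                have h5 := (Finset.mem_filter.1 hS).2
                have h6 : (S : ℝ) - (σ₀ - 2 ^ M * a / b) = 2 ^ M * f S / b := by
                  rw [hf]
                  field_simp
                  ring
                rw [h6, abs_div, abs_mul, abs_of_pos (by positivity : (0 : ℝ) < 2 ^ M)]
                exact div_le_div_of_nonneg_right (mul_le_mul_of_nonneg_left h5 (by positivity))
                  hbp.le)
            have h7 : 2 ^ M * (1 / 2 ^ k) / |b| ≤ 2 ^ M * (1 / 2 ^ k) / (|a| / (2 * B)) :=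
              div_le_div_of_nonneg_left (by positivity) (by positivity) hb0
            have h8 : 2 * (2 ^ M * (1 / 2 ^ k) / (|a| / (2 * B))) =
                4 * B * 2 ^ M * pd n a / 2 ^ k := by
              rw [e1]
              field_simp
              ring
            linarith only [h4, h7, h8]) (by norm_num)
        have h9 : (((F.filter (fun S => |f S| < |a| / 2)).card : ℕ) : ℝ) ≤ (2 * B + 1) * 2 ^ M := by
          refine le_trans ?_ hcard
          exact_mod_cast Finset.card_filter_le F _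
        linarith only [h3, h9]
    have h3 : (2 * B + 1) * 2 ^ M ≤ (2 * B + 1) * 2 ^ M * (B * pd n a) :=
      le_mul_of_one_le_right (by positivity) hBa
    have h4 : 4 * (2 : ℝ) ^ n ≤ 4 * 2 ^ M * (B * pd n a) := by
      have := le_mul_of_one_le_right (show (0 : ℝ) ≤ 4 * 2 ^ M by positivity) hBa
      linarith only [hnM', this]
    have h5 : C * 2 ^ M * (n + 1) * pd n a =
        ((2 * B + 1) * (B + 2) + 8 * B) * (2 ^ M * pd n a) * (n + 1) +
          8 * B * 2 ^ M * pd n a * (n + 1) := by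
      rw [hC]
      ring
    have h6 : ((2 * B + 1) * (B + 2) + 8 * B) * (2 ^ M * pd n a) * 1 ≤
        ((2 * B + 1) * (B + 2) + 8 * B) * (2 ^ M * pd n a) * (n + 1) :=
      mul_le_mul_of_nonneg_left (by linarith only) (by positivity)
    rw [h5]
    have h7 : 0 ≤ B * (2 ^ M * pd n a) := by positivity
    nlinarith only [h1, h2, h3, h4, h6, h7]

/-- **(N3)** -/
theorem n3 : N3Stmt := by
  intro B hB
  have hB0 : 0 < B := by linarith
  obtain ⟨C, hC⟩ : ∃ C : ℝ, C = 2 * (2 * B + 3) * (4 * B + 1) + 8 * B * (4 * B + 1) + 3 * B :=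
    ⟨_, rfl⟩
  have hC0 : 0 < C := by
    rw [hC]
    positivity
  refine ⟨C, hC0, ?_⟩
  intro n γ x₁ x₂ u₁ u₂ g g₁ g₂ F hγ hγ1 hg hg1 hg2 hd1 hd2 hD hu hF
  have hp : (0 : ℝ) < 2 ^ n := by positivity
  have hp1 : (1 : ℝ) ≤ 2 ^ n := one_le_pow₀ (by norm_num)
  obtain ⟨D, hDd⟩ : ∃ D, D = x₁ - x₂ := ⟨_, rfl⟩
  obtain ⟨E, hE⟩ : ∃ E, E = (4 * B + 1) / 2 ^ n := ⟨_, rfl⟩
  have hE0 : 0 < E := by
    rw [hE]
    positivity
  have hE1 : 1 / 2 ^ n ≤ E := by
    rw [hE]
    exact div_le_div_of_nonneg_right (by linarith only [hB]) hp.le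
  -- the solutions
  have hsol : ∀ A ∈ F, ∃ z : ℝ, |(A : ℝ) - 2 ^ n * (x₁ + z)| ≤ 1 ∧ |z| ≤ B ∧
      |(g₁ - g₂) * z - (g₂ - g) * D| ≤ E := by
    intro A hA
    obtain ⟨y₁, y₂, w₁, w₂, h1, h2, h3, h4, h5, h6, h7⟩ := hF A hA
    refine ⟨y₁ - x₁, ?_, h4, ?_⟩
    · have e1 := Int.floor_le ((2 : ℝ) ^ n * y₁)
      have e2 := Int.lt_floor_add_one ((2 : ℝ) ^ n * y₁)
      rw [h1] at e1 e2
      have e3 : x₁ + (y₁ - x₁) = y₁ := by ring
      rw [e3, abs_le]
      constructor <;> linarith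
    · have e1 : |y₁ - y₂| ≤ 1 / 2 ^ n := by
        have := Int.abs_sub_lt_one_of_floor_eq_floor (h1.trans h2.symm)
        rw [← mul_sub, abs_mul, abs_of_pos hp] at this
        rw [le_div_iff₀ hp, mul_comm]
        exact this.le
      have e2 : |w₁ - w₂| ≤ 1 / 2 ^ n := by
        have := Int.abs_sub_lt_one_of_floor_eq_floor h3
        rw [← mul_sub, abs_mul, abs_of_pos hp] at this
        rw [le_div_iff₀ hp, mul_comm]
        exact this.le
      have e3 : (g₁ - g₂) * (y₁ - x₁) - (g₂ - g) * D =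
          (w₁ - w₂) - ((w₁ - u₁) - g₁ * (y₁ - x₁)) + ((w₂ - u₂) - g₂ * (y₂ - x₂)) -
          ((u₁ - u₂) - g * (x₁ - x₂)) - g₂ * (y₁ - y₂) := by
        rw [hDd]
        ring
      have e4 : |g₂ * (y₁ - y₂)| ≤ B / 2 ^ n := by
        rw [abs_mul]
        calc |g₂| * |y₁ - y₂| ≤ B * (1 / 2 ^ n) :=
              mul_le_mul hg2 e1 (abs_nonneg _) hB0.le
          _ = B / 2 ^ n := by ring
      have e5 : E = 1 / 2 ^ n + B / 2 ^ n + B / 2 ^ n + B / 2 ^ n + B / 2 ^ n := by
        rw [hE]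
        ring
      rw [e3, e5]
      rw [abs_le] at e2 h6 h7 hu e4 ⊢
      constructor <;> linarith only [hu, h6, h7, e2, e4, e2.1, e2.2, h6.1, h6.2, h7.1, h7.2, hu.1, hu.2, e4.1, e4.2]
  rw [← hDd] at hD ⊢
  rcases le_or_gt |D| (2 * E / γ) with h | h
  · -- close points
    have h1 : (F.card : ℝ) ≤ (2 * B + 3) * 2 ^ n := by
      have h2 := card_int F (2 ^ n * x₁) (B * 2 ^ n + 1) (by positivity) (fun A hA => by
        obtain ⟨z, h3, h4, -⟩ := hsol A hA
        rw [abs_le] at h3 h4 ⊢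
        have h5 := mul_le_mul_of_nonneg_left h4.1 hp.le
        have h6 := mul_le_mul_of_nonneg_left h4.2 hp.le
        constructor <;> linarith [h3.1, h3.2])
      nlinarith only [hp1, h2]
    have h2 : 2 ^ n * γ / (2 * (4 * B + 1)) ≤ pd n D := by
      unfold pd
      have h3 : max |D| (1 / 2 ^ n) ≤ 2 * E / γ := by
        refine max_le h ?_
        rw [le_div_iff₀ hγ]
        have h4 : 1 / 2 ^ n * γ ≤ 1 / 2 ^ n * 1 := mul_le_mul_of_nonneg_left hγ1 (by positivity)
        linarith only [hE0, hE1, h4]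
      have h5 : 2 ^ n * γ / (2 * (4 * B + 1)) = (2 * E / γ)⁻¹ := by
        rw [hE]
        field_simp
      rw [h5]
      exact inv_anti₀ (lt_of_lt_of_le (by positivity) (le_max_right _ _)) h3
    rw [le_div_iff₀ hγ]
    rw [div_le_iff₀ (by positivity)] at h2
    have h3 : (F.card : ℝ) * γ ≤ (2 * B + 3) * (2 ^ n * γ) := by
      have := mul_le_mul_of_nonneg_right h1 hγ.le
      linarith only [this]
    have h4 : (2 * B + 3) * (2 ^ n * γ) ≤ (2 * B + 3) * (pd n D * (2 * (4 * B + 1))) :=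
      mul_le_mul_of_nonneg_left h2 (by positivity)
    have h5 : (2 * B + 3) * (pd n D * (2 * (4 * B + 1))) ≤ C * pd n D := by
      have h6 : 0 ≤ (8 * B * (4 * B + 1) + 3 * B) * pd n D :=
        mul_nonneg (by positivity) (pd_pos n D).le
      rw [hC]
      linarith only [h6]
    linarith only [h3, h4, h5]
  · have hD0 : 0 < |D| := lt_trans (by positivity) h
    have hEγ : E ≤ γ * |D| / 2 := by
      rw [div_lt_iff₀ hγ] at h
      linarith only [h]
    have h2E : 1 / 2 ^ n ≤ |D| := by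
      have h3 : 2 * E ≤ 2 * E / γ := by
        rw [le_div_iff₀ hγ]
        have := mul_le_mul_of_nonneg_left hγ1 (show 0 ≤ 2 * E by linarith only [hE0])
        linarith only [this]
      linarith only [hE0, hE1, h, h3]
    have hpd : pd n D = 1 / |D| := by
      unfold pd
      rw [max_eq_left h2E, one_div]
    have hBD : 1 ≤ B * (1 / |D|) := by
      rw [mul_one_div, le_div_iff₀ hD0, one_mul]
      exact hD
    rcases F.eq_empty_or_nonempty with h0 | ⟨A₀, hA₀⟩
    · rw [h0, Finset.card_empty, hpd]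
      push_cast
      positivity
    · obtain ⟨z₀, hz1, hz2, hz3⟩ := hsol A₀ hA₀
      have hh : γ * |D| / (2 * B) ≤ |g₁ - g₂| := by
        have e1 : γ * |D| ≤ |(g₂ - g) * D| := by
          rw [abs_mul, abs_sub_comm g₂ g]
          exact mul_le_mul_of_nonneg_right hd2 (abs_nonneg _)
        have e2 : |(g₂ - g) * D| - E ≤ |(g₁ - g₂) * z₀| := by
          have := abs_sub_abs_le_abs_sub ((g₂ - g) * D) ((g₁ - g₂) * z₀)
          rw [abs_sub_comm] at this
          linarith only [hz3, this]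
        have e3 : |(g₁ - g₂) * z₀| ≤ |g₁ - g₂| * B := by
          rw [abs_mul]
          exact mul_le_mul_of_nonneg_left hz2 (abs_nonneg _)
        rw [div_le_iff₀ (by positivity)]
        linarith only [hEγ, e1, e2, e3]
      have hgp : 0 < |g₁ - g₂| := lt_of_lt_of_le (by positivity) hh
      have hr0 : 0 ≤ 4 * B * (4 * B + 1) / (γ * |D|) + 2 := by positivity
      have h1 := card_int F (2 ^ n * (x₁ + z₀)) (4 * B * (4 * B + 1) / (γ * |D|) + 1)
        (by positivity) (fun A hA => by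
          obtain ⟨z, k1, k2, k3⟩ := hsol A hA
          have k4 : |(g₁ - g₂) * (z - z₀)| ≤ 2 * E := by
            have e1 : (g₁ - g₂) * (z - z₀) = ((g₁ - g₂) * z - (g₂ - g) * D) -
              ((g₁ - g₂) * z₀ - (g₂ - g) * D) := by ring
            rw [e1]
            refine (abs_sub _ _).trans ?_
            linarith only [hz3, k3]
          rw [abs_mul] at k4
          have k5 : |z - z₀| ≤ 2 * E * (2 * B) / (γ * |D|) := by
            rw [le_div_iff₀ (by positivity)]
            rw [div_le_iff₀ (by positivity)] at hh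
            calc |z - z₀| * (γ * |D|) ≤ |z - z₀| * (|g₁ - g₂| * (2 * B)) :=
                  mul_le_mul_of_nonneg_left hh (abs_nonneg _)
              _ = |g₁ - g₂| * |z - z₀| * (2 * B) := by ring
              _ ≤ 2 * E * (2 * B) := mul_le_mul_of_nonneg_right k4 (by positivity)
          have k6 : 2 ^ n * |z - z₀| ≤ 4 * B * (4 * B + 1) / (γ * |D|) := by
            refine (mul_le_mul_of_nonneg_left k5 hp.le).trans (le_of_eq ?_)
            rw [hE]
            field_simp
            ring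
          have k7 : |(2 : ℝ) ^ n * (z - z₀)| ≤ 4 * B * (4 * B + 1) / (γ * |D|) := by
            rw [abs_mul, abs_of_pos hp]
            exact k6
          rw [abs_le] at k7 k1 ⊢
          constructor <;> linarith only [k1, k7, k7.1, k7.2, k1.1, k1.2])
      rw [hpd]
      have h2 : (1 : ℝ) ≤ B * (1 / |D|) / γ := by
        rw [le_div_iff₀ hγ]
        linarith only [hγ1, hBD]
      have h3 : C * (1 / |D|) / γ = (2 * (2 * B + 3) * (4 * B + 1)) * (1 / |D|) / γ +
          2 * (4 * B * (4 * B + 1) / (γ * |D|)) + 3 * (B * (1 / |D|) / γ) := by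
        rw [hC]
        field_simp
        ring
      have h4 : 0 ≤ (2 * (2 * B + 3) * (4 * B + 1)) * (1 / |D|) / γ := by positivity
      rw [h3]
      linarith only [h1, h2, h4]

end Pool.LX
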